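import Pool.Agent.J4H20.TQ.Stm
import Pool.Agent.J4H21.TP.R3P

/-!
# Project TQ: (R3Q)
-/

set_option autoImplicit false

namespace Pool.Agent.J4H20.TQ

open Polynomial Filter Topology Pool.Agent.J4H20.TP

/-- a number `≤ e t` is a sum of `e` numbers `≤ t` -/
lemma split_sum (t : ℕ) : ∀ (e ρ : ℕ), ρ ≤ e * t →
    ∃ m : Fin e → ℕ, (∀ j, m j ≤ t) ∧ ∑ j, m j = ρ
  | 0, ρ, h => ⟨Fin.elim0, fun j => j.elim0, by simp at h; simp [h]⟩
  | e + 1, ρ, h => by
    obtain ⟨m, hm, hs⟩ := split_sum t e (ρ - min ρ t) (by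
      rw [add_mul, one_mul] at h
      rcases le_total ρ t with h1 | h1
      · rw [min_eq_left h1]; omega
      · rw [min_eq_right h1]; omega)
    refine ⟨Fin.cons (min ρ t) m, ?_, ?_⟩
    · intro j
      refine Fin.cases ?_ ?_ j
      · simp
      · intro i; simpa using hm i
    · rw [Fin.sum_univ_succ]
      simp only [Fin.cons_zero, Fin.cons_succ, hs]
      omega

/-- degree and leading coefficient -/
lemma deg_aux (p e : ℕ) (hp : 1 ≤ p) (G R : ℝ[X]) (s : ℝ) (hs : s ≠ 0) (he : 1 ≤ e) (hG : G.Monic)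
    (hGn : G.natDegree = e) (hR : R.degree < ((p - 1) * e : ℕ)) :
    (G + C s) ^ p - (G ^ p + R) ≠ 0 ∧ ((G + C s) ^ p - (G ^ p + R)).natDegree ≤ (p - 1) * e := by
  have hH : (G + C s).Monic := hG.add_of_left (by
    rw [degree_eq_natDegree hG.ne_zero, hGn]
    refine degree_C_le.trans_lt ?_
    exact_mod_cast he)
  have hHn : (G + C s).natDegree = e := by rw [natDegree_add_C, hGn]
  have hp0 : (p : ℝ) ≠ 0 := by
    have : 0 < p := hp
    exact_mod_cast this.ne'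
  obtain ⟨h1, h2⟩ := Pool.Agent.J4H21.TP.mon_aux p e hp G (G + C s) R hG hGn hH hHn
    (1 / ((p : ℝ) * s)) hR
  have h3 : (G + C s) ^ p - (G ^ p + R) = C ((p : ℝ) * s) *
      (C (1 / (p : ℝ)) * (∑ j ∈ Finset.range p, (G + C s) ^ j * G ^ (p - 1 - j)) -
        C (1 / ((p : ℝ) * s)) * R) := by
    have h4 := (Commute.all (G + C s) G).mul_geom_sum₂ p
    rw [add_sub_cancel_left] at h4
    rw [mul_sub, ← mul_assoc, ← mul_assoc, ← C_mul, ← C_mul]
    have h5 : (p : ℝ) * s * (1 / (p : ℝ)) = s := by field_simp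
    have h6 : (p : ℝ) * s * (1 / ((p : ℝ) * s)) = 1 := by field_simp
    rw [h5, h6, C_1, one_mul, h4]
    ring
  have h7 : ((p : ℝ) * s) ≠ 0 := mul_ne_zero hp0 hs
  constructor
  · rw [h3]
    exact mul_ne_zero (C_ne_zero.2 h7) h1.ne_zero
  · rw [h3]
    exact (natDegree_C_mul_le _ _).trans h2.le

/-- the scaled limit polynomial -/
lemma scale_aux (p : ℕ) (B : ℝ) (hB : B ≠ 0) (α : Fin p → ℝ) (α0 : Fin p → ℝ)
    (h : ∀ i, α i = α0 i / B) :
    ((C B * X + C 1) ^ p - C B ^ p * ∏ i, (X - C (α i)) : ℝ[X]) =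
      ((X + 1) ^ p - ∏ i, (X - C (α0 i)) : ℝ[X]).comp (C B * X) := by
  rw [sub_comp, pow_comp, add_comp, X_comp, one_comp, prod_comp, C_1]
  congr 1
  have h1 : ∏ i, ((X - C (α0 i) : ℝ[X]).comp (C B * X)) = ∏ i, (C B * (X - C (α i))) := by
    refine Finset.prod_congr rfl fun i _ => ?_
    rw [sub_comp, X_comp, C_comp, h i, mul_sub, ← C_mul, mul_div_cancel₀ _ hB]
  rw [h1, Finset.prod_mul_distrib, Finset.prod_const, Finset.card_univ, Fintype.card_fin]

theorem t_R3Q : S_PL → S_CL → S_G → S_LIM → S_R3Q := by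
  intro hPL hCL hG hLIM p e ρ hp hp2 he hρ
  obtain ⟨t, ht⟩ : ∃ t, p = 2 * t + 1 := by
    rcases hp.eq_two_or_odd' with h | h
    · omega
    · exact h
  have hodd : Odd p := ⟨t, ht⟩
  obtain ⟨m, hm, hms⟩ := split_sum t e ρ (by
    have h0 : (p - 1) * e = 2 * (e * t) := by
      rw [ht, Nat.add_sub_cancel]; ring
    omega)
  choose α0 hα0 hα0s z0 hz0 hz0r hz0c using fun j => hCL p (m j) hodd (by have := hm j; omega)
  set a : Fin e → ℚ := fun j => ((j : ℕ) : ℚ) with ha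
  have hainj : Function.Injective a := by
    intro i j hij
    simp only [ha, Nat.cast_inj] at hij
    exact Fin.ext hij
  set B : Fin e → ℚ := fun j => ∏ l ∈ Finset.univ.erase j, (a j - a l) with hB
  have hB0 : ∀ j, B j ≠ 0 := by
    intro j
    refine Finset.prod_ne_zero_iff.2 fun l hl => ?_
    rw [Finset.mem_erase] at hl
    exact sub_ne_zero.2 fun h => hl.1 (hainj h).symm
  set α : Fin p × Fin e → ℚ := fun i => α0 i.2 i.1 / B i.2 with hα
  have hαs : ∀ j, ∑ i, α (i, j) = 0 := by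
    intro j
    simp only [hα]
    rw [← Finset.sum_div, hα0s j, zero_div]
  obtain ⟨h, r, hGr⟩ := hG p e a α hp2 hαs
  set g : ℚ → ℚ[X] := fun ε => ∏ j, (X - C (a j)) +
    C (ε ^ 2) * ∑ j : Fin e, C ((h j).eval ε) * X ^ (j : ℕ) with hg
  set R : ℚ → ℚ[X] := fun ε => ∑ j : Fin ((p - 1) * e), C ((r j).eval ε) * X ^ (j : ℕ) with hRdef
  have hA : (∏ j, (X - C (a j)) : ℚ[X]).Monic := monic_prod_of_monic _ _ fun j _ => monic_X_sub_C _
  have hAn : (∏ j, (X - C (a j)) : ℚ[X]).natDegree = e := by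
    rw [natDegree_prod_of_monic _ _ fun j _ => monic_X_sub_C _]
    simp
  have hlow : ∀ (n : ℕ) (c : Fin n → ℚ), (∑ j : Fin n, C (c j) * X ^ (j : ℕ) : ℚ[X]).degree < n := by
    intro n c
    exact degree_sum_fin_lt c
  have hgmon : ∀ ε, (g ε).Monic ∧ (g ε).natDegree = e := by
    intro ε
    have h1 : (C (ε ^ 2) * ∑ j : Fin e, C ((h j).eval ε) * X ^ (j : ℕ) : ℚ[X]).degree <
        (∏ j, (X - C (a j)) : ℚ[X]).degree := by
      rw [degree_eq_natDegree hA.ne_zero, hAn]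
      rw [← smul_eq_C_mul]
      exact (degree_smul_le _ _).trans_lt (hlow e _)
    refine ⟨hA.add_of_left h1, ?_⟩
    rw [hg]
    simp only
    rw [natDegree_add_eq_left_of_degree_lt h1, hAn]
  have hRdeg : ∀ ε, (R ε).degree < ((p - 1) * e : ℕ) := fun ε => hlow _ _
  -- the small parameter
  set ε : ℕ → ℚ := fun k => 1 / ((k : ℚ) + 1) with hε
  have hε0 : ∀ k, 0 < ε k := fun k => by simp only [hε]; positivity
  have hεR : ∀ k, (0 : ℝ) < (ε k : ℝ) := fun k => by exact_mod_cast hε0 k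
  have hεlim : Tendsto (fun k => (ε k : ℝ)) atTop (𝓝 0) := by
    have h1 := tendsto_one_div_add_atTop_nhds_zero_nat (𝕜 := ℝ)
    refine h1.congr fun k => ?_
    simp [hε]
  set b : ℚ → Fin p × Fin e → ℚ := fun ε i => a i.2 + ε * α i with hb
  have hbinj : ∀ᶠ k in atTop, Function.Injective (b (ε k)) := by
    have h1 : ∀ᶠ k in atTop, ∀ i j : Fin p × Fin e, i ≠ j → b (ε k) i ≠ b (ε k) j := by
      rw [eventually_all]
      intro i
      rw [eventually_all]
      intro j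
      by_cases hij : i = j
      · exact Eventually.of_forall fun k h => absurd hij h
      by_cases h2 : i.2 = j.2
      · refine Eventually.of_forall fun k _ h3 => hij ?_
        simp only [hb] at h3
        rw [h2] at h3
        have h4 := mul_left_cancel₀ (hε0 k).ne' (add_left_cancel h3)
        simp only [hα] at h4
        rw [h2] at h4
        have h5 := (div_left_inj' (hB0 _)).1 h4
        exact Prod.ext (hα0 _ h5) h2
      · have h3 : Tendsto (fun k => ((a i.2 : ℚ) : ℝ) + ε k * α i - (a j.2 + ε k * α j)) atTop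
            (𝓝 ((a i.2 : ℝ) + 0 * α i - (a j.2 + 0 * α j))) :=
          (tendsto_const_nhds.add (hεlim.mul_const _)).sub
            (tendsto_const_nhds.add (hεlim.mul_const _))
        have h4 : ((a i.2 : ℚ) : ℝ) + 0 * α i - (a j.2 + 0 * α j) ≠ 0 := by
          rw [zero_mul, zero_mul, add_zero, add_zero]
          exact sub_ne_zero.2 fun h => h2 (hainj (by exact_mod_cast h))
        filter_upwards [h3.eventually_ne h4] with k hk _ h5
        apply hk
        simp only [hb] at h5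
        rw [sub_eq_zero]
        exact_mod_cast h5
    filter_upwards [h1] with k hk i j hij
    by_contra hne
    exact hk i j hne hij
  by_contra hcon
  push Not at hcon
  have hcon' : ∀ k : ℕ, ∃ s : ℝ, (ε k : ℝ) * (1 - 1 / ((k : ℝ) + 2)) < s ∧
      s < (ε k : ℝ) * (1 + 1 / ((k : ℝ) + 2)) ∧ (Function.Injective (b (ε k)) →
        {x : ℝ | (aeval x (g (ε k)) + s) ^ p =
          aeval x (g (ε k)) ^ p + aeval x (R (ε k))}.ncard ≠ 2 * ρ) := by
    intro k
    have h1 : (0 : ℝ) < 1 / ((k : ℝ) + 2) := by positivity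
    have h2 : 1 / ((k : ℝ) + 2) < 1 := by
      rw [div_lt_one (by positivity)]
      have : (0 : ℝ) ≤ k := Nat.cast_nonneg k
      linarith
    by_cases hk : Function.Injective (b (ε k))
    · obtain ⟨s, h3, h4, h5⟩ := hcon (b (ε k)) (g (ε k)) (R (ε k))
        ((ε k : ℝ) * (1 - 1 / ((k : ℝ) + 2))) ((ε k : ℝ) * (1 + 1 / ((k : ℝ) + 2))) hk
        (hgmon _).1 (hgmon _).2 (hRdeg _) (hGr _) (mul_pos (hεR k) (by linarith))
        (mul_lt_mul_of_pos_left (by linarith) (hεR k))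
      exact ⟨s, h3, h4, fun _ => h5⟩
    · refine ⟨ε k, ?_, ?_, fun h => absurd h hk⟩
      · exact mul_lt_of_lt_one_right (hεR k) (by linarith)
      · exact lt_mul_of_one_lt_right (hεR k) (by linarith)
  choose s hs1 hs2 hs3 using hcon'
  set σ : ℕ → ℝ := fun k => s k / ε k with hσ
  have hsσ : ∀ k, (ε k : ℝ) * σ k = s k := fun k => by
    simp only [hσ]
    exact mul_div_cancel₀ _ (hεR k).ne'
  have hσlim : Tendsto σ atTop (𝓝 1) := by
    have h1 : Tendsto (fun k : ℕ => 1 / ((k : ℝ) + 2)) atTop (𝓝 0) := by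
      have h2 := (tendsto_one_div_add_atTop_nhds_zero_nat (𝕜 := ℝ)).comp (tendsto_add_atTop_nat 1)
      refine h2.congr fun k => ?_
      simp only [Function.comp_apply]
      push_cast
      ring_nf
    have h3 : Tendsto (fun k : ℕ => 1 - 1 / ((k : ℝ) + 2)) atTop (𝓝 1) := by
      simpa using tendsto_const_nhds.sub h1
    have h4 : Tendsto (fun k : ℕ => 1 + 1 / ((k : ℝ) + 2)) atTop (𝓝 1) := by
      simpa using tendsto_const_nhds.add h1
    refine tendsto_of_tendsto_of_tendsto_of_le_of_le h3 h4 (fun k => ?_) (fun k => ?_)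
    · simp only [hσ]
      rw [le_div_iff₀ (hεR k), mul_comm]
      exact (hs1 k).le
    · simp only [hσ]
      rw [div_le_iff₀ (hεR k), mul_comm]
      exact (hs2 k).le
  have hspos : ∀ k, 0 < s k := by
    intro k
    refine lt_trans (mul_pos (hεR k) ?_) (hs1 k)
    have h2 : 1 / ((k : ℝ) + 2) < 1 := by
      rw [div_lt_one (by positivity)]
      have : (0 : ℝ) ≤ k := Nat.cast_nonneg k
      linarith
    linarith
  set P : ℕ → ℝ[X] := fun k =>
    (∏ j, (X - C (a j : ℝ)) + C ((ε k : ℝ) ^ 2) * ∑ j : Fin e,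
          C (((h j).eval (ε k) : ℚ) : ℝ) * X ^ (j : ℕ) + C ((ε k : ℝ) * σ k)) ^ p -
        ∏ i : Fin p × Fin e, (X - C ((a i.2 : ℝ) + ε k * α i)) with hP
  have hgR : ∀ k, (g (ε k)).map (algebraMap ℚ ℝ) = ∏ j, (X - C (a j : ℝ)) +
      C ((ε k : ℝ) ^ 2) * ∑ j : Fin e, C (((h j).eval (ε k) : ℚ) : ℝ) * X ^ (j : ℕ) := by
    intro k
    simp only [hg]
    simp [Polynomial.map_prod, Polynomial.map_sum]
  have hPR : ∀ k, P k = ((g (ε k)).map (algebraMap ℚ ℝ) + C (s k)) ^ p -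
      (((g (ε k)).map (algebraMap ℚ ℝ)) ^ p + (R (ε k)).map (algebraMap ℚ ℝ)) := by
    intro k
    simp only [hP]
    rw [← hgR k, hsσ k]
    congr 1
    rw [← Polynomial.map_pow, ← Polynomial.map_add, ← hGr (ε k), Polynomial.map_prod]
    refine Finset.prod_congr rfl fun i _ => ?_
    simp
  have hBC : ∀ j, ((B j : ℚ) : ℂ) ≠ 0 := fun j => by exact_mod_cast hB0 j
  have hBR : ∀ j, ((B j : ℚ) : ℝ) ≠ 0 := fun j => by exact_mod_cast hB0 j
  have hz1 : ∀ x : Fin e × Fin (p - 1), (C ((B x.1 : ℚ) : ℝ) * X + C 1) ^ p - C ((B x.1 : ℚ) : ℝ) ^ p *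
      ∏ i, (X - C ((α (i, x.1) : ℚ) : ℝ)) = ((X + 1) ^ p - ∏ i, (X - C (α0 x.1 i : ℝ)) : ℝ[X]).comp
        (C ((B x.1 : ℚ) : ℝ) * X) := by
    intro x
    refine scale_aux p _ (hBR x.1) _ (fun i => (α0 x.1 i : ℝ)) fun i => ?_
    simp only [hα]
    push_cast
    rfl
  have hz2 : ∀ x : Fin e × Fin (p - 1), aeval (z0 x.1 x.2 / ((B x.1 : ℚ) : ℂ))
      (C ((B x.1 : ℚ) : ℝ) * X : ℝ[X]) = z0 x.1 x.2 := by
    intro x
    rw [_root_.map_mul, aeval_X, aeval_C]
    have h1 : (algebraMap ℝ ℂ) ((B x.1 : ℚ) : ℝ) = ((B x.1 : ℚ) : ℂ) := by simp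
    rw [h1, mul_div_cancel₀ _ (hBC x.1)]
  have key := hPL (Fin e × Fin (p - 1)) P (fun x _ => ((a x.1 : ℚ) : ℝ)) (fun _ k => (ε k : ℝ))
    (fun _ k => ((ε k : ℝ) ^ p)⁻¹)
    (fun x => (C ((B x.1 : ℚ) : ℝ) * X + C 1) ^ p - C ((B x.1 : ℚ) : ℝ) ^ p *
      ∏ i, (X - C ((α (i, x.1) : ℚ) : ℝ)))
    (fun x => z0 x.1 x.2 / ((B x.1 : ℚ) : ℂ)) ?_ ?_ ?_ ?_ ?_
  · obtain ⟨k, ⟨-, hk⟩, hk2⟩ := (key.and hbinj).exists
    apply hs3 k hk2
    have h1 : {x : ℝ | (aeval x (g (ε k)) + s k) ^ p =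
        aeval x (g (ε k)) ^ p + aeval x (R (ε k))} = {x : ℝ | (P k).eval x = 0} := by
      ext x
      simp only [Set.mem_ofPred_eq]
      rw [hPR k]
      simp only [eval_sub, eval_add, eval_pow, eval_C]
      rw [sub_eq_zero, eval_map_algebraMap, eval_map_algebraMap]
    rw [h1, hk]
    have h2 : {x : Fin e × Fin (p - 1) | (z0 x.1 x.2 / ((B x.1 : ℚ) : ℂ)).im = 0} =
        {x : Fin e × Fin (p - 1) | (z0 x.1 x.2).im = 0} := by
      ext x
      simp only [Set.mem_ofPred_eq]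
      have h3 : (z0 x.1 x.2 / ((B x.1 : ℚ) : ℂ)).im = (z0 x.1 x.2).im / (B x.1 : ℚ) := by
        simp
      rw [h3, div_eq_zero_iff]
      simp [hBR x.1]
    rw [h2]
    classical
    have h3 : ∀ j, (Finset.univ.filter fun i => (z0 j i).im = 0).card = 2 * m j := by
      intro j
      rw [← hz0c j, ← Set.ncard_coe_finset]
      congr 1
      ext i
      simp
    have h4 : {x : Fin e × Fin (p - 1) | (z0 x.1 x.2).im = 0} =
        ((Finset.univ.filter fun x : Fin e × Fin (p - 1) => (z0 x.1 x.2).im = 0 : Finset _) :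
          Set (Fin e × Fin (p - 1))) := by
      ext x
      simp
    rw [h4, Set.ncard_coe_finset, Finset.card_filter, Fintype.sum_prod_type, ← hms, Finset.mul_sum]
    refine Finset.sum_congr rfl fun j _ => ?_
    rw [← h3 j, Finset.card_filter]
  · intro k
    rw [hPR k, Fintype.card_prod, Fintype.card_fin, Fintype.card_fin, mul_comm e]
    refine deg_aux p e (by omega) _ _ (s k) (hspos k).ne' he ((hgmon _).1.map _) ?_ ?_
    · rw [(hgmon _).1.natDegree_map, (hgmon _).2]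
    · exact (degree_map_le).trans_lt (hRdeg _)
  · intro _ k
    exact (hεR k).ne'
  · intro x d
    exact hLIM p e a α h x.1 ε σ 1 ((B x.1 : ℚ) : ℝ) hainj (fun k => (hε0 k).ne') hεlim hσlim
      (by simp only [hB]; push_cast; rfl) d
  · intro x
    rw [hz1 x]
    obtain ⟨h1, h2⟩ := hz0r x.1 x.2
    constructor
    · rw [aeval_comp, hz2 x]
      exact h1
    · rw [derivative_comp, _root_.map_mul, aeval_comp, hz2 x]
      refine mul_ne_zero ?_ h2
      rw [derivative_C_mul, derivative_X, mul_one, aeval_C]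
      simpa using hB0 x.1
  · intro x y hxy ζ ξ hζ hξ
    have h1 : Tendsto (fun k => ((ε k : ℝ) : ℂ)) atTop (𝓝 0) := by
      have h0 := (Complex.continuous_ofReal.tendsto 0).comp hεlim
      rw [Complex.ofReal_zero] at h0
      exact h0
    by_cases hj : x.1 = y.1
    · have hne : z0 x.1 x.2 / ((B x.1 : ℚ) : ℂ) ≠ z0 y.1 y.2 / ((B y.1 : ℚ) : ℂ) := by
        intro h2
        rw [hj] at h2
        have h3 := (div_left_inj' (hBC y.1)).1 h2
        exact hxy (Prod.ext hj (hz0 y.1 h3))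
      have h2 := (hζ.sub hξ).eventually_ne (sub_ne_zero.2 hne)
      filter_upwards [h2] with k hk h3
      apply hk
      rw [hj] at h3
      have h4 : ((ε k : ℝ) : ℂ) ≠ 0 := by exact_mod_cast (hεR k).ne'
      exact sub_eq_zero.2 (mul_left_cancel₀ h4 (add_left_cancel h3))
    · have h2 : Tendsto (fun k => (((a x.1 : ℚ) : ℝ) : ℂ) + ((ε k : ℝ) : ℂ) * ζ k -
          ((((a y.1 : ℚ) : ℝ) : ℂ) + ((ε k : ℝ) : ℂ) * ξ k)) atTop
          (𝓝 ((((a x.1 : ℚ) : ℝ) : ℂ) + 0 * (z0 x.1 x.2 / ((B x.1 : ℚ) : ℂ)) -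
            ((((a y.1 : ℚ) : ℝ) : ℂ) + 0 * (z0 y.1 y.2 / ((B y.1 : ℚ) : ℂ))))) :=
        (tendsto_const_nhds.add (h1.mul hζ)).sub (tendsto_const_nhds.add (h1.mul hξ))
      have h3 : (((a x.1 : ℚ) : ℝ) : ℂ) + 0 * (z0 x.1 x.2 / ((B x.1 : ℚ) : ℂ)) -
            ((((a y.1 : ℚ) : ℝ) : ℂ) + 0 * (z0 y.1 y.2 / ((B y.1 : ℚ) : ℂ))) ≠ 0 := by
        rw [zero_mul, zero_mul, add_zero, add_zero]
        exact sub_ne_zero.2 fun h => hj (hainj (by exact_mod_cast h))
      filter_upwards [h2.eventually_ne h3] with k hk h4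
      exact hk (sub_eq_zero.2 h4)

end Pool.Agent.J4H20.TQ
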