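import Pool.Agent.J4H20.TQ.Stm
import Pool.Agent.J4H21.TP.R3P

/-!
# Project TQ: (LIM)
-/

set_option autoImplicit false

namespace Pool.Agent.J4H20.TQ

open Polynomial Filter Topology Pool.Agent.J4H20.TP Pool.Agent.J4H21.TP

lemma CT.prod {ι : Type} (s : Finset ι) {Q : ι → ℕ → ℝ[X]} {P : ι → ℝ[X]}
    (h : ∀ i ∈ s, CT (Q i) (P i)) : CT (fun m => ∏ i ∈ s, Q i m) (∏ i ∈ s, P i) := by
  classical
  induction s using Finset.induction_on with
  | empty => simp only [Finset.prod_empty]; exact CT.const 1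
  | insert a s ha ih =>
    simp only [Finset.prod_insert ha]
    exact CT.mul (h a (Finset.mem_insert_self a s))
      (ih fun i hi => h i (Finset.mem_insert_of_mem hi))

lemma pol_lim (f : ℚ[X]) (ε : ℕ → ℚ) (hε : Tendsto (fun k => (ε k : ℝ)) atTop (𝓝 0)) :
    Tendsto (fun k => ((f.eval (ε k) : ℚ) : ℝ)) atTop (𝓝 ((f.eval 0 : ℚ) : ℝ)) := by
  have hc : Continuous fun x : ℝ => (f.map (algebraMap ℚ ℝ)).eval x := Polynomial.continuous _
  have h1 := (hc.tendsto 0).comp hε
  have h2 : (f.map (algebraMap ℚ ℝ)).eval 0 = ((f.eval 0 : ℚ) : ℝ) := by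
    rw [eval_map, eval₂_at_zero, ← coeff_zero_eq_eval_zero]
    rfl
  rw [h2] at h1
  refine h1.congr fun m => ?_
  simp only [Function.comp_apply]
  rw [eval_map]
  have h3 := Polynomial.hom_eval₂ f (RingHom.id ℚ) (algebraMap ℚ ℝ) (ε m)
  rw [RingHom.comp_id] at h3
  exact h3.symm

theorem t_LIM : S_LIM := by
  intro p e a α h j ε σ σ₀ B _ hε hεl hσ hB d
  set E : ℕ → ℝ := fun k => (ε k : ℝ) with hE
  have hE0 : ∀ k, E k ≠ 0 := fun k => by simp only [hE]; exact_mod_cast hε k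
  set L : ℕ → ℝ[X] := fun k => C (a j : ℝ) + C (E k) * X with hL
  set W : ℕ → ℝ[X] := fun k => ∏ l ∈ Finset.univ.erase j, (L k - C (a l : ℝ)) with hW
  set H : ℕ → ℝ[X] := fun k => ∑ l : Fin e, C (((h l).eval (ε k) : ℚ) : ℝ) * L k ^ (l : ℕ) with hH
  set V : ℕ → ℝ[X] := fun k => ∏ i : Fin p, ∏ l ∈ Finset.univ.erase j,
    (L k - C ((a l : ℝ) + E k * α (i, l))) with hV
  have key : ∀ k, ((∏ j, (X - C (a j : ℝ)) + C ((ε k : ℝ) ^ 2) * ∑ j : Fin e,
          C (((h j).eval (ε k) : ℚ) : ℝ) * X ^ (j : ℕ) + C ((ε k : ℝ) * σ k)) ^ p -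
        ∏ i : Fin p × Fin e, (X - C ((a i.2 : ℝ) + ε k * α i))).comp (L k) =
      C (E k ^ p) * ((X * W k + C (E k) * H k + C (σ k)) ^ p -
        (∏ i, (X - C (α (i, j) : ℝ))) * V k) := by
    intro k
    have h1 : ∏ l, (L k - C (a l : ℝ)) = C (E k) * X * W k := by
      rw [← Finset.mul_prod_erase _ _ (Finset.mem_univ j)]
      congr 1
      simp only [hL]
      ring
    have h2 : ∏ i : Fin p × Fin e, (L k - C ((a i.2 : ℝ) + E k * α i)) =
        C (E k ^ p) * ((∏ i, (X - C (α (i, j) : ℝ))) * V k) := by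
      rw [Fintype.prod_prod_type]
      have h3 : ∀ i : Fin p, ∏ l : Fin e, (L k - C ((a l : ℝ) + E k * α (i, l))) =
          C (E k) * ((X - C (α (i, j) : ℝ)) * ∏ l ∈ Finset.univ.erase j,
            (L k - C ((a l : ℝ) + E k * α (i, l)))) := by
        intro i
        rw [← Finset.mul_prod_erase _ _ (Finset.mem_univ j), ← mul_assoc]
        congr 1
        simp only [hL, C_add, C_mul]
        ring
      simp only [h3]
      rw [Finset.prod_mul_distrib, Finset.prod_mul_distrib, Finset.prod_const, Finset.card_univ,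
        Fintype.card_fin, C_pow]
    have h4 : (∑ l : Fin e, C (((h l).eval (ε k) : ℚ) : ℝ) * X ^ (l : ℕ) : ℝ[X]).comp (L k) =
        H k := by
      simp only [hH]
      rw [Polynomial.sum_comp]
      simp
    rw [sub_comp, pow_comp, add_comp, add_comp, mul_comp, prod_comp, prod_comp, h4]
    simp only [sub_comp, X_comp, C_comp]
    rw [h1]
    have h5 : ∏ i : Fin p × Fin e, (L k - C ((a i.2 : ℝ) + (ε k : ℝ) * α i)) =
      ∏ i : Fin p × Fin e, (L k - C ((a i.2 : ℝ) + E k * α i)) := rfl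
    rw [h5, h2, mul_sub]
    congr 1
    have h6 : C (E k) * X * W k + C ((ε k : ℝ) ^ 2) * H k + C ((ε k : ℝ) * σ k) =
        C (E k) * (X * W k + C (E k) * H k + C (σ k)) := by
      simp only [hE, C_mul, C_pow]
      ring
    rw [h6, mul_pow, C_pow]
  have hEl : Tendsto E atTop (𝓝 0) := hεl
  have cL : CT L (C (a j : ℝ)) := by
    have h1 := (CT.const (C (a j : ℝ))).add ((CT.cc hEl).mul (CT.const X))
    rw [C_0, zero_mul, add_zero] at h1
    exact h1
  have cW : CT W (C B) := by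
    have h1 := CT.prod (Finset.univ.erase j) (Q := fun l k => L k - C (a l : ℝ))
      (P := fun l => C (a j : ℝ) - C (a l : ℝ)) fun l _ => cL.sub (CT.const _)
    have h2 : ∏ l ∈ Finset.univ.erase j, (C (a j : ℝ) - C (a l : ℝ)) = C B := by
      rw [hB, map_prod]
      exact Finset.prod_congr rfl fun l _ => by rw [C_sub]
    rw [h2] at h1
    exact h1
  have cH : CT H (∑ l : Fin e, C (((h l).eval 0 : ℚ) : ℝ) * C (a j : ℝ) ^ (l : ℕ)) :=
    CT.sum _ fun l _ => (CT.cc (pol_lim (h l) ε hεl)).mul (cL.pow _)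
  have cV : CT V (C B ^ p) := by
    have h1 := CT.prod Finset.univ (Q := fun (i : Fin p) k => ∏ l ∈ Finset.univ.erase j,
      (L k - C ((a l : ℝ) + E k * α (i, l))))
      (P := fun _ => ∏ l ∈ Finset.univ.erase j, (C (a j : ℝ) - C ((a l : ℝ) + 0 * α (_, l))))
      fun i _ => CT.prod _ fun l _ => cL.sub (CT.cc (tendsto_const_nhds.add (hEl.mul_const _)))
    have h2 : ∀ i : Fin p, ∏ l ∈ Finset.univ.erase j,
        (C (a j : ℝ) - C ((a l : ℝ) + 0 * α (i, l))) = C B := by
      intro i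
      rw [hB, map_prod]
      exact Finset.prod_congr rfl fun l _ => by rw [C_sub, zero_mul, add_zero]
    simp only [h2, Finset.prod_const, Finset.card_univ, Fintype.card_fin] at h1
    exact h1
  have cAll : CT (fun k => (X * W k + C (E k) * H k + C (σ k)) ^ p -
      (∏ i, (X - C (α (i, j) : ℝ))) * V k) ((C B * X + C σ₀) ^ p -
        C B ^ p * ∏ i, (X - C (α (i, j) : ℝ))) := by
    have h1 := (((((CT.const X).mul cW).add ((CT.cc hEl).mul cH)).add (CT.cc hσ)).pow p).sub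
      ((CT.const (∏ i, (X - C (α (i, j) : ℝ)))).mul cV)
    rw [C_0, zero_mul, add_zero, mul_comm X, mul_comm (∏ i, (X - C (α (i, j) : ℝ)))] at h1
    exact h1
  refine (cAll d).congr fun k => ?_
  have h1 := key k
  simp only [hL, hE] at h1
  rw [h1, coeff_C_mul]
  simp only [hE]
  rw [inv_mul_cancel_left₀ (pow_ne_zero _ (by exact_mod_cast hε k))]

end Pool.Agent.J4H20.TQ
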