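import Pool.Agent.J4H20.TQ.CLb
import Pool.Agent.J4H57.TQ.Zz
import Pool.Agent.J4H42.TQ.Fi

/-!
# Project TQ: (CL)
-/

set_option autoImplicit false

namespace Pool.Agent.J4H20.TQ

theorem t_CL : S_PL → S_CL :=
  t_CL' Pool.Agent.J4H57.TQ.zz
    (fun p m hp ι κ _ _ => Pool.Agent.J4H42.TQ.fi p m hp ι κ)

end Pool.Agent.J4H20.TQ
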