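import Pool.Agent.J4H20.TQ.LIM

/-!
# Project TQ: (CL), the limits
-/

set_option autoImplicit false

namespace Pool.Agent.J4H20.TQ

open Polynomial Filter Topology Pool.Agent.J4H20.TP Pool.Agent.J4H21.TP

/-- the roots -/
noncomputable def bet (m n : ℕ) (k : ℕ) : Fin (2 * m) ⊕ Fin n → ℚ :=
  Sum.elim (fun l => (l : ℕ) + 1) (fun l => ((k : ℚ) + 2 * m + n + 1) + (l : ℕ) / ((k : ℚ) + 2 * m + n + 1))

noncomputable def PP (m n : ℕ) (k : ℕ) : ℝ[X] := X ^ (2 * m + n) - ∏ i, (X - C (bet m n k i : ℝ))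

lemma K_lim (m n : ℕ) : Tendsto (fun k : ℕ => ((k : ℝ) + 2 * m + n + 1)⁻¹) atTop (𝓝 0) := by
  have h1 : Tendsto (fun k : ℕ => ((k : ℝ) + (2 * m + n + 1))) atTop atTop :=
    tendsto_atTop_add_const_right _ _ tendsto_natCast_atTop_atTop
  refine h1.inv_tendsto_atTop.congr fun k => ?_
  simp [add_assoc]

lemma lim1 (m n : ℕ) (hn : Odd n) (d : ℕ) :
    Tendsto (fun k : ℕ => (((k : ℝ) + 2 * m + n + 1) ^ n)⁻¹ *
      ((PP m n k).comp (C (0 : ℝ) + C (1 : ℝ) * X)).coeff d) atTop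
      (𝓝 ((∏ l : Fin (2 * m), (X - C (((l : ℕ) : ℝ) + 1)) : ℝ[X]).coeff d)) := by
  have hK := K_lim m n
  have key : ∀ k : ℕ, C ((((k : ℝ) + 2 * m + n + 1) ^ n)⁻¹) * PP m n k =
      C (((k : ℝ) + 2 * m + n + 1)⁻¹) ^ n * X ^ (2 * m + n) -
        (∏ l : Fin (2 * m), (X - C (((l : ℕ) : ℝ) + 1))) *
          ∏ l : Fin n, (C (((k : ℝ) + 2 * m + n + 1)⁻¹) * X -
            C (1 + ((l : ℕ) : ℝ) * (((k : ℝ) + 2 * m + n + 1)⁻¹ * ((k : ℝ) + 2 * m + n + 1)⁻¹))) := by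
    intro k
    have hK0 : ((k : ℝ) + 2 * m + n + 1) ≠ 0 := by positivity
    rw [PP, Fintype.prod_sum_type, mul_sub]
    congr 1
    · rw [← C_pow, inv_pow]
    · simp only [bet, Sum.elim_inl, Sum.elim_inr]
      have h1 : ∏ l : Fin n, (C (((k : ℝ) + 2 * m + n + 1)⁻¹) * X -
            C (1 + ((l : ℕ) : ℝ) * (((k : ℝ) + 2 * m + n + 1)⁻¹ * ((k : ℝ) + 2 * m + n + 1)⁻¹))) =
          C ((((k : ℝ) + 2 * m + n + 1) ^ n)⁻¹) * ∏ l : Fin n, (X - C (((((k : ℚ) + 2 * m + n + 1) +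
            (l : ℕ) / ((k : ℚ) + 2 * m + n + 1) : ℚ)) : ℝ)) := by
        have h0 : ∀ l : Fin n, (C (((k : ℝ) + 2 * m + n + 1)⁻¹) * X -
            C (1 + ((l : ℕ) : ℝ) * (((k : ℝ) + 2 * m + n + 1)⁻¹ * ((k : ℝ) + 2 * m + n + 1)⁻¹)) : ℝ[X]) =
            C (((k : ℝ) + 2 * m + n + 1)⁻¹) * (X - C (((((k : ℚ) + 2 * m + n + 1) +
            (l : ℕ) / ((k : ℚ) + 2 * m + n + 1) : ℚ)) : ℝ)) := by
          intro l
          rw [mul_sub, ← C_mul]
          congr 2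
          push_cast
          field_simp
        simp only [h0]
        rw [Finset.prod_mul_distrib, Finset.prod_const, Finset.card_univ, Fintype.card_fin,
          ← C_pow, inv_pow]
      rw [h1]
      have h2 : ∏ l : Fin (2 * m), (X - C ((((l : ℕ) : ℚ) + 1 : ℚ) : ℝ)) =
          ∏ l : Fin (2 * m), (X - C (((l : ℕ) : ℝ) + 1)) := by
        refine Finset.prod_congr rfl fun l _ => ?_
        push_cast
        rfl
      rw [h2]
      ring
  have h3 : CT (fun k : ℕ => C ((((k : ℝ) + 2 * m + n + 1) ^ n)⁻¹) * PP m n k)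
      (C (0 : ℝ) ^ n * X ^ (2 * m + n) - (∏ l : Fin (2 * m), (X - C (((l : ℕ) : ℝ) + 1))) *
        ∏ l : Fin n, (C (0 : ℝ) * X - C (1 + ((l : ℕ) : ℝ) * (0 * 0)))) := by
    have h4 := (((CT.cc hK).pow n).mul (CT.const (X ^ (2 * m + n)))).sub
      ((CT.const (∏ l : Fin (2 * m), (X - C (((l : ℕ) : ℝ) + 1)))).mul
        (CT.prod Finset.univ (Q := fun (l : Fin n) (k : ℕ) => C (((k : ℝ) + 2 * m + n + 1)⁻¹) * X -
            C (1 + ((l : ℕ) : ℝ) * (((k : ℝ) + 2 * m + n + 1)⁻¹ * ((k : ℝ) + 2 * m + n + 1)⁻¹)))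
          (P := fun l => C (0 : ℝ) * X - C (1 + ((l : ℕ) : ℝ) * (0 * 0))) fun l _ =>
          ((CT.cc hK).mul (CT.const X)).sub
            (CT.cc (tendsto_const_nhds.add (tendsto_const_nhds.mul (hK.mul hK))))))
    intro d
    refine (h4 d).congr fun k => ?_
    exact congrArg (fun q => q.coeff d) (key k).symm
  have hn0 : n ≠ 0 := by
    rintro rfl
    simp at hn
  have h5 : (C (0 : ℝ) ^ n * X ^ (2 * m + n) - (∏ l : Fin (2 * m), (X - C (((l : ℕ) : ℝ) + 1))) *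
        ∏ l : Fin n, (C (0 : ℝ) * X - C (1 + ((l : ℕ) : ℝ) * (0 * 0))) : ℝ[X]) =
      ∏ l : Fin (2 * m), (X - C (((l : ℕ) : ℝ) + 1)) := by
    rw [C_0, zero_pow hn0, zero_mul, zero_mul, zero_sub]
    simp only [zero_sub, mul_zero, add_zero, C_1]
    rw [Finset.prod_const, Finset.card_univ, Fintype.card_fin, hn.neg_one_pow]
    ring
  rw [h5] at h3
  refine (h3 d).congr fun k => ?_
  rw [coeff_C_mul, C_0, C_1, zero_add, one_mul, comp_X]

lemma lim2 (m n : ℕ) (d : ℕ) :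
    Tendsto (fun k : ℕ => (((k : ℝ) + 2 * m + n + 1) ^ (2 * m + n))⁻¹ *
      ((PP m n k).comp (C (0 : ℝ) + C ((k : ℝ) + 2 * m + n + 1) * X)).coeff d) atTop
      (𝓝 ((X ^ (2 * m) * (X ^ n - (X - 1) ^ n) : ℝ[X]).coeff d)) := by
  have hK := K_lim m n
  have key : ∀ k : ℕ, (PP m n k).comp (C (0 : ℝ) + C ((k : ℝ) + 2 * m + n + 1) * X) =
      C (((k : ℝ) + 2 * m + n + 1) ^ (2 * m + n)) * (X ^ (2 * m + n) -
        (∏ l : Fin (2 * m), (X - C ((((l : ℕ) : ℝ) + 1) * ((k : ℝ) + 2 * m + n + 1)⁻¹))) *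
          ∏ l : Fin n, (X -
            C (1 + ((l : ℕ) : ℝ) * (((k : ℝ) + 2 * m + n + 1)⁻¹ * ((k : ℝ) + 2 * m + n + 1)⁻¹)))) := by
    intro k
    set K : ℝ := (k : ℝ) + 2 * m + n + 1 with hKd
    have hK0 : K ≠ 0 := by rw [hKd]; positivity
    rw [PP, Fintype.prod_sum_type, sub_comp, mul_comp, prod_comp, prod_comp, C_0, zero_add]
    simp only [bet, Sum.elim_inl, Sum.elim_inr, sub_comp, pow_comp, X_comp, C_comp]
    have h1 : ∏ l : Fin (2 * m), (C K * X - C ((((l : ℕ) : ℚ) + 1 : ℚ) : ℝ)) =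
        C K ^ (2 * m) * ∏ l : Fin (2 * m), (X - C ((((l : ℕ) : ℝ) + 1) * K⁻¹)) := by
      have h0 : ∀ l : Fin (2 * m), (C K * X - C ((((l : ℕ) : ℚ) + 1 : ℚ) : ℝ) : ℝ[X]) =
          C K * (X - C ((((l : ℕ) : ℝ) + 1) * K⁻¹)) := by
        intro l
        rw [mul_sub, ← C_mul]
        congr 2
        push_cast
        field_simp
      simp only [h0]
      rw [Finset.prod_mul_distrib, Finset.prod_const, Finset.card_univ, Fintype.card_fin]
    have h2 : ∏ l : Fin n, (C K * X - C (((((k : ℚ) + 2 * m + n + 1) +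
            (l : ℕ) / ((k : ℚ) + 2 * m + n + 1) : ℚ)) : ℝ)) =
        C K ^ n * ∏ l : Fin n, (X - C (1 + ((l : ℕ) : ℝ) * (K⁻¹ * K⁻¹))) := by
      have h0 : ∀ l : Fin n, (C K * X - C (((((k : ℚ) + 2 * m + n + 1) +
            (l : ℕ) / ((k : ℚ) + 2 * m + n + 1) : ℚ)) : ℝ) : ℝ[X]) =
          C K * (X - C (1 + ((l : ℕ) : ℝ) * (K⁻¹ * K⁻¹))) := by
        intro l
        rw [mul_sub, ← C_mul]
        congr 2
        push_cast
        rw [← hKd]
        field_simp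
      simp only [h0]
      rw [Finset.prod_mul_distrib, Finset.prod_const, Finset.card_univ, Fintype.card_fin]
    rw [h1, h2, mul_pow, C_pow, pow_add (C K)]
    ring
  have h3 : CT (fun k : ℕ => X ^ (2 * m + n) -
        (∏ l : Fin (2 * m), (X - C ((((l : ℕ) : ℝ) + 1) * ((k : ℝ) + 2 * m + n + 1)⁻¹))) *
          ∏ l : Fin n, (X -
            C (1 + ((l : ℕ) : ℝ) * (((k : ℝ) + 2 * m + n + 1)⁻¹ * ((k : ℝ) + 2 * m + n + 1)⁻¹))))
      (X ^ (2 * m + n) - (∏ l : Fin (2 * m), (X - C ((((l : ℕ) : ℝ) + 1) * 0))) *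
          ∏ l : Fin n, (X - C (1 + ((l : ℕ) : ℝ) * (0 * 0)))) := by
    exact (CT.const (X ^ (2 * m + n))).sub
      ((CT.prod Finset.univ (Q := fun (l : Fin (2 * m)) (k : ℕ) =>
          X - C ((((l : ℕ) : ℝ) + 1) * ((k : ℝ) + 2 * m + n + 1)⁻¹))
          (P := fun l => X - C ((((l : ℕ) : ℝ) + 1) * 0)) fun l _ =>
          (CT.const X).sub (CT.cc (tendsto_const_nhds.mul hK))).mul
        (CT.prod Finset.univ (Q := fun (l : Fin n) (k : ℕ) => X -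
            C (1 + ((l : ℕ) : ℝ) * (((k : ℝ) + 2 * m + n + 1)⁻¹ * ((k : ℝ) + 2 * m + n + 1)⁻¹)))
          (P := fun l => X - C (1 + ((l : ℕ) : ℝ) * (0 * 0))) fun l _ =>
          (CT.const X).sub
            (CT.cc (tendsto_const_nhds.add (tendsto_const_nhds.mul (hK.mul hK))))))
  have h5 : (X ^ (2 * m + n) - (∏ l : Fin (2 * m), (X - C ((((l : ℕ) : ℝ) + 1) * 0))) *
          ∏ l : Fin n, (X - C (1 + ((l : ℕ) : ℝ) * (0 * 0))) : ℝ[X]) =
      X ^ (2 * m) * (X ^ n - (X - 1) ^ n) := by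
    simp only [mul_zero, add_zero, C_1, C_0, sub_zero]
    rw [Finset.prod_const, Finset.card_univ, Fintype.card_fin, Finset.prod_const, Finset.card_univ,
      Fintype.card_fin]
    ring
  rw [h5] at h3
  refine (h3 d).congr fun k => ?_
  have hK0 : ((k : ℝ) + 2 * m + n + 1) ≠ 0 := by positivity
  rw [key k, coeff_C_mul, inv_mul_cancel_left₀ (pow_ne_zero _ hK0)]

end Pool.Agent.J4H20.TQ
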