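import Pool.Agent.J4H20.TQ.CLa

/-!
# Project TQ: (CL), assembly
-/

set_option autoImplicit false

namespace Pool.Agent.J4H20.TQ

open Polynomial Filter Topology Pool.Agent.J4H20.TP Pool.Agent.J4H21.TP

lemma bet_inj (m n k : ℕ) : Function.Injective (bet m n k) := by
  have hK0 : (0 : ℚ) < (k : ℚ) + 2 * m + n + 1 := by positivity
  have h1 : ∀ (l : Fin (2 * m)) (l' : Fin n), bet m n k (Sum.inl l) < bet m n k (Sum.inr l') := by
    intro l l'
    simp only [bet, Sum.elim_inl, Sum.elim_inr]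
    have h2 : ((l : ℕ) : ℚ) + 1 ≤ 2 * m := by
      have := l.2
      have h3 : (l : ℕ) + 1 ≤ 2 * m := by omega
      exact_mod_cast h3
    have h4 : (0 : ℚ) ≤ ((l' : ℕ) : ℚ) / ((k : ℚ) + 2 * m + n + 1) := by positivity
    have h5 : (0 : ℚ) ≤ k := by positivity
    have h6 : (0 : ℚ) ≤ n := by positivity
    linarith
  rintro (l | l) (l' | l') h
  · simp only [bet, Sum.elim_inl, add_left_inj, Nat.cast_inj] at h
    rw [Fin.ext h]
  · exact absurd h (h1 l l').ne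
  · exact absurd h (h1 l' l).ne'
  · simp only [bet, Sum.elim_inr, add_right_inj] at h
    have h2 := (div_left_inj' hK0.ne').1 h
    rw [Nat.cast_inj] at h2
    rw [Fin.ext h2]

lemma bet_pos (m n k : ℕ) (i : Fin (2 * m) ⊕ Fin n) : 0 < bet m n k i := by
  rcases i with l | l
  · simp only [bet, Sum.elim_inl]; positivity
  · simp only [bet, Sum.elim_inr]; positivity

lemma PP_deg (m n k : ℕ) (hn : 0 < n) : PP m n k ≠ 0 ∧ (PP m n k).natDegree ≤ 2 * m + (n - 1) := by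
  have hm : (∏ i, (X - C (bet m n k i : ℝ)) : ℝ[X]).Monic :=
    monic_prod_of_monic _ _ fun j _ => monic_X_sub_C _
  have hd : (∏ i, (X - C (bet m n k i : ℝ)) : ℝ[X]).natDegree = 2 * m + n := by
    rw [natDegree_prod_of_monic _ _ fun j _ => monic_X_sub_C _]
    simp only [natDegree_X_sub_C]
    simp
  have h0 : PP m n k ≠ 0 := by
    intro h
    have h1 := congrArg (eval (bet m n k (Sum.inr ⟨0, hn⟩) : ℝ)) h
    rw [PP, eval_sub, eval_pow, eval_X, eval_prod, eval_zero, Finset.prod_eq_zero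
      (Finset.mem_univ (Sum.inr ⟨0, hn⟩)) (by simp), sub_zero] at h1
    have h2 := bet_pos m n k (Sum.inr ⟨0, hn⟩)
    have h3 : (0 : ℝ) < (bet m n k (Sum.inr ⟨0, hn⟩) : ℝ) := by exact_mod_cast h2
    exact absurd h1 (pow_pos h3 _).ne'
  refine ⟨h0, ?_⟩
  have h1 : (PP m n k).degree < (X ^ (2 * m + n) : ℝ[X]).degree := by
    rw [PP]
    refine degree_sub_lt ?_ (pow_ne_zero _ X_ne_zero) ?_
    · rw [degree_X_pow, degree_eq_natDegree hm.ne_zero, hd]
    · rw [hm.leadingCoeff, leadingCoeff_X_pow]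
  rw [degree_X_pow, degree_eq_natDegree h0] at h1
  have h2 : (PP m n k).natDegree < 2 * m + n := by exact_mod_cast h1
  omega

theorem t_CL' (hzz : ∀ (m n : ℕ), Odd n → ∃ z : Fin (n - 1) → ℂ, Function.Injective z ∧ ∀ j, z j ≠ 0 ∧
      (z j).im ≠ 0 ∧ aeval (z j) (X ^ (2 * m) * (X ^ n - (X - 1) ^ n) : ℝ[X]) = 0 ∧
      aeval (z j) (derivative (X ^ (2 * m) * (X ^ n - (X - 1) ^ n) : ℝ[X])) ≠ 0)
    (hfi : ∀ (p m : ℕ), p ≠ 0 → ∀ (ι κ : Type) [Fintype ι] [Fintype κ], Fintype.card ι = p →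
      Fintype.card κ = p - 1 → ∀ β : ι → ℚ, Function.Injective β → ∑ i, β i ≠ 0 → ∀ w : κ → ℂ,
      Function.Injective w → (∀ i, aeval (w i) (X ^ p - ∏ i, (X - C (β i : ℝ)) : ℝ[X]) = 0 ∧
        aeval (w i) (derivative (X ^ p - ∏ i, (X - C (β i : ℝ)) : ℝ[X])) ≠ 0) →
      {i | (w i).im = 0}.ncard = 2 * m →
      ∃ α : Fin p → ℚ, Function.Injective α ∧ ∑ i, α i = 0 ∧ ∃ z : Fin (p - 1) → ℂ,
        Function.Injective z ∧ (∀ i, aeval (z i) ((X + 1) ^ p - ∏ i, (X - C (α i : ℝ)) : ℝ[X]) = 0 ∧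
          aeval (z i) (derivative ((X + 1) ^ p - ∏ i, (X - C (α i : ℝ)) : ℝ[X])) ≠ 0) ∧
        {i | (z i).im = 0}.ncard = 2 * m) : S_PL → S_CL := by
  intro hPL p m hp hm
  obtain ⟨n, rfl⟩ : ∃ n, p = 2 * m + n := ⟨p - 2 * m, by omega⟩
  have hn : Odd n := by
    rcases hp with ⟨t, ht⟩
    exact ⟨t - m, by omega⟩
  have hn0 : 0 < n := by omega
  obtain ⟨z, hzinj, hz⟩ := hzz m n hn
  have hKpos : ∀ k : ℕ, (0 : ℝ) < (k : ℝ) + 2 * m + n + 1 := fun k => by positivity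
  have hKC : Tendsto (fun k : ℕ => ((((k : ℝ) + 2 * m + n + 1 : ℝ) : ℂ))⁻¹) atTop (𝓝 0) := by
    have h0 := (Complex.continuous_ofReal.tendsto 0).comp (K_lim m n)
    rw [Complex.ofReal_zero] at h0
    refine h0.congr fun k => ?_
    simp only [Function.comp_apply]
    rw [Complex.ofReal_inv]
  have hsep : (∏ l : Fin (2 * m), (X - C (((l : ℕ) : ℝ) + 1)) : ℝ[X]).Separable := by
    rw [separable_prod_X_sub_C_iff]
    intro l l' h
    simp only [add_left_inj, Nat.cast_inj] at h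
    exact Fin.ext h
  have key := hPL (Fin (2 * m) ⊕ Fin (n - 1)) (PP m n) (fun _ _ => 0)
    (Sum.elim (fun _ _ => 1) (fun _ k => (k : ℝ) + 2 * m + n + 1))
    (Sum.elim (fun _ k => (((k : ℝ) + 2 * m + n + 1) ^ n)⁻¹)
      (fun _ k => (((k : ℝ) + 2 * m + n + 1) ^ (2 * m + n))⁻¹))
    (Sum.elim (fun _ => ∏ l : Fin (2 * m), (X - C (((l : ℕ) : ℝ) + 1)))
      (fun _ => X ^ (2 * m) * (X ^ n - (X - 1) ^ n)))
    (Sum.elim (fun l => (((((l : ℕ) : ℝ) + 1 : ℝ)) : ℂ)) z) ?_ ?_ ?_ ?_ ?_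
  · obtain ⟨k, ⟨w, hw, hwr⟩, -⟩ := key.exists
    refine hfi (2 * m + n) m (by omega) (Fin (2 * m) ⊕ Fin n) (Fin (2 * m) ⊕ Fin (n - 1)) (by simp)
      (by simp; omega) (bet m n k) (bet_inj m n k) ?_ w hw (fun i => ⟨(hwr i).1, (hwr i).2.1⟩) ?_
    · refine (Finset.sum_pos (fun i _ => bet_pos m n k i) ⟨Sum.inr ⟨0, hn0⟩, Finset.mem_univ _⟩).ne'
    · have h1 : {i | (w i).im = 0} = Set.range (Sum.inl : Fin (2 * m) → Fin (2 * m) ⊕ Fin (n - 1)) := by
        ext i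
        simp only [Set.mem_ofPred_eq]
        rw [(hwr i).2.2]
        rcases i with l | l
        · simp only [Sum.elim_inl, Set.mem_range, Sum.inl.injEq, exists_eq, iff_true]
          exact Complex.ofReal_im _
        · simp [(hz l).2.1]
      rw [h1, Set.ncard_range_of_injective Sum.inl_injective]
      simp
  · intro k
    have := PP_deg m n k hn0
    simpa using this
  · rintro (l | l) k
    · simp
    · simpa using (hKpos k).ne'
  · rintro (l | l) d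
    · exact lim1 m n hn d
    · exact lim2 m n d
  · rintro (l | l)
    · simp only [Sum.elim_inl]
      have h1 : aeval (((((l : ℕ) : ℝ) + 1 : ℝ)) : ℂ)
          (∏ l : Fin (2 * m), (X - C (((l : ℕ) : ℝ) + 1)) : ℝ[X]) = 0 := by
        rw [map_prod]
        refine Finset.prod_eq_zero (Finset.mem_univ l) ?_
        simp
      exact ⟨h1, hsep.aeval_derivative_ne_zero h1⟩
    · exact (hz l).2.2
  · have hmix : ∀ (l : Fin (2 * m)) (j : Fin (n - 1)) (ζ ξ : ℕ → ℂ),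
        Tendsto ζ atTop (𝓝 ((((l : ℕ) : ℝ) + 1 : ℝ) : ℂ)) → Tendsto ξ atTop (𝓝 (z j)) →
        ∀ᶠ k : ℕ in atTop, ((0 : ℝ) : ℂ) + ((1 : ℝ) : ℂ) * ζ k ≠
          ((0 : ℝ) : ℂ) + (((k : ℝ) + 2 * m + n + 1 : ℝ) : ℂ) * ξ k := by
      intro l j ζ ξ hζ hξ
      have h1 := (hKC.mul hζ).sub hξ
      rw [zero_mul, zero_sub] at h1
      filter_upwards [h1.eventually_ne (neg_ne_zero.2 (hz j).1)] with k hk h2
      apply hk
      rw [Complex.ofReal_zero, Complex.ofReal_one, zero_add, zero_add, one_mul] at h2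
      have h3 : (((k : ℝ) + 2 * m + n + 1 : ℝ) : ℂ) ≠ 0 := by exact_mod_cast (hKpos k).ne'
      rw [h2, inv_mul_cancel_left₀ h3, sub_self]
    rintro (l | l) (j | j) hne ζ ξ hζ hξ
    · simp only [Sum.elim_inl] at hζ hξ ⊢
      have hne' : (((((l : ℕ) : ℝ) + 1 : ℝ)) : ℂ) ≠ (((((j : ℕ) : ℝ) + 1 : ℝ)) : ℂ) := by
        intro h
        apply hne
        have h1 := Complex.ofReal_injective h
        simp only [add_left_inj, Nat.cast_inj] at h1
        rw [Fin.ext h1]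
      filter_upwards [(hζ.sub hξ).eventually_ne (sub_ne_zero.2 hne')] with k hk h2
      apply hk
      rw [Complex.ofReal_one, one_mul, one_mul] at h2
      exact sub_eq_zero.2 (add_left_cancel h2)
    · exact hmix l j ζ ξ hζ hξ
    · filter_upwards [hmix j l ξ ζ hξ hζ] with k hk h2
      exact hk h2.symm
    · simp only [Sum.elim_inr] at hζ hξ ⊢
      have hne' : z l ≠ z j := fun h => hne (by rw [hzinj h])
      filter_upwards [(hζ.sub hξ).eventually_ne (sub_ne_zero.2 hne')] with k hk h2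
      apply hk
      have h3 : (((k : ℝ) + 2 * m + n + 1 : ℝ) : ℂ) ≠ 0 := by exact_mod_cast (hKpos k).ne'
      exact sub_eq_zero.2 (mul_left_cancel₀ h3 (add_left_cancel h2))

end Pool.Agent.J4H20.TQ
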