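import Pool.Agent.J4H20.TP.Stm

/-!
# Project TQ: `p`-rank at least `r₂ + n / (p - 1) - 1` in every signature of degree `n = (p - 1) e`: statements

As TP (`Pool.Agent.J4H20.TP.Stm`), with a prescribed number `2 ρ` of real places.  `f = ∏ (X - a j - ε α i j)` (`p` roots near
each of `e` points `a j`, `∑ i, α i j = 0`), `f = g ^ p + r`, `s = ε σ`: near `a j` the equation `(g + s) ^ p = f` becomes for
`x = a j + ε y`, `ε → 0`, the equation `(y + σ / B j) ^ p = ∏ i, (y - α i j)`, `B j = ∏ (a j - a l)`, of degree `p - 1`, which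
may have any even number of real solutions.
-/

set_option autoImplicit false

namespace Pool.Agent.J4H20.TQ

open Polynomial Filter Topology Pool.Agent.J4H20.TP

/-- (PL) roots from limits in several places.  Proof: for `R = (P k) (u + v X)` of degree `≤ n`, `z` a simple root of the limit:
`R' (z) / R (z) = ∑ 1 / (z - root)`, so some root `ζ k` of `R` has `|ζ k - z| ≤ n |R (z) / R' (z)| → 0` (if `R (z) = 0` take
`ζ k = z`).  So `P k` has the roots `u i k + v i k ζ i k`, distinct for large `k` by the last hypothesis, `n` in number, so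
these are all roots and they are simple.  The complex conjugate of such a root is one of them, again with the same `i` by the
last hypothesis if `z i` is real; so it is real if `z i` is real, and it is not real if `z i` is not real. -/
def S_PL : Prop :=
  ∀ (ι : Type) [Fintype ι] (P : ℕ → ℝ[X]) (u v c : ι → ℕ → ℝ) (Q : ι → ℝ[X]) (z : ι → ℂ),
    (∀ k, P k ≠ 0 ∧ (P k).natDegree ≤ Fintype.card ι) → (∀ i k, v i k ≠ 0) →
    (∀ i d, Tendsto (fun k => c i k * ((P k).comp (C (u i k) + C (v i k) * X)).coeff d) atTop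
      (𝓝 ((Q i).coeff d))) →
    (∀ i, aeval (z i) (Q i) = 0 ∧ aeval (z i) (derivative (Q i)) ≠ 0) →
    (∀ i j, i ≠ j → ∀ ζ ξ : ℕ → ℂ, Tendsto ζ atTop (𝓝 (z i)) → Tendsto ξ atTop (𝓝 (z j)) →
      ∀ᶠ k in atTop, (u i k : ℂ) + v i k * ζ k ≠ u j k + v j k * ξ k) →
    ∀ᶠ k in atTop, (∃ w : ι → ℂ, Function.Injective w ∧ ∀ i, aeval (w i) (P k) = 0 ∧
        aeval (w i) (derivative (P k)) ≠ 0 ∧ ((w i).im = 0 ↔ (z i).im = 0)) ∧
      {x : ℝ | (P k).eval x = 0}.ncard = {i | (z i).im = 0}.ncard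

/-- (CL) `t_CL : S_PL → S_CL`, the limit equations.  With `w = y + 1`, `β = α + 1` and after scaling: distinct rational `β i`
with sum `≠ 0` such that `w ^ p - ∏ (w - β i)` has `p - 1` distinct roots, `2 m` real ones.  Take `β = 1, ..., 2 m` and
`k + l / k` for `l < m' = p - 2 m`, `k → ∞`, and (PL) with `ι = Fin (2 m) ⊕ Fin (m' - 1)`: the places `1, ..., 2 m` with
`u = 0`, `v = 1`, `c = k ^ (- m')`, `Q = ∏ (X - l)` (`m'` is odd), and the places `z = ζ / (ζ - 1)`, `ζ ^ m' = 1`, `ζ ≠ 1`, with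
`u = 0`, `v = k`, `c = k ^ (- p)`, `Q = X ^ (2 m) (X ^ m' - (X - 1) ^ m')`. -/
def S_CL : Prop :=
  ∀ p m : ℕ, Odd p → 2 * m < p → ∃ α : Fin p → ℚ, Function.Injective α ∧ ∑ i, α i = 0 ∧
    ∃ z : Fin (p - 1) → ℂ, Function.Injective z ∧ (∀ i,
      aeval (z i) ((X + 1) ^ p - ∏ i, (X - C (α i : ℝ)) : ℝ[X]) = 0 ∧
      aeval (z i) (derivative ((X + 1) ^ p - ∏ i, (X - C (α i : ℝ)) : ℝ[X])) ≠ 0) ∧
      {i | (z i).im = 0}.ncard = 2 * m

/-- (G) as `S_R1P` (J4H19/TP/R1P.lean: `root_step`, over `ℚ[ε]`): `f = G ^ p + r`; modulo `ε ^ 2` the product is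
`(∏ (X - a j)) ^ p` as `∑ i, α (i, j) = 0`, so `G = ∏ (X - a j)` modulo `ε ^ 2` (uniqueness of the root) -/
def S_G : Prop :=
  ∀ (p e : ℕ) (a : Fin e → ℚ) (α : Fin p × Fin e → ℚ), 2 < p → (∀ j, ∑ i, α (i, j) = 0) →
    ∃ (h : Fin e → ℚ[X]) (r : Fin ((p - 1) * e) → ℚ[X]), ∀ ε : ℚ,
      ∏ i : Fin p × Fin e, (X - C (a i.2 + ε * α i)) =
        (∏ j, (X - C (a j)) + C (ε ^ 2) * ∑ j : Fin e, C ((h j).eval ε) * X ^ (j : ℕ)) ^ p +
          ∑ j : Fin ((p - 1) * e), C ((r j).eval ε) * X ^ (j : ℕ)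

/-- (LIM) the limit near `a j`: `(G + ε σ) (a j + ε X) / ε → B X + σ₀` (use `CT` in J4H21/TP/R3P.lean: limits of the
coefficients of sums, products, powers) -/
def S_LIM : Prop :=
  ∀ (p e : ℕ) (a : Fin e → ℚ) (α : Fin p × Fin e → ℚ) (h : Fin e → ℚ[X]) (j : Fin e) (ε : ℕ → ℚ)
    (σ : ℕ → ℝ) (σ₀ : ℝ) (B : ℝ), Function.Injective a → (∀ k, ε k ≠ 0) →
    Tendsto (fun k => (ε k : ℝ)) atTop (𝓝 0) → Tendsto σ atTop (𝓝 σ₀) →
    B = ∏ l ∈ Finset.univ.erase j, ((a j : ℝ) - a l) → ∀ d, Tendsto (fun k => ((ε k : ℝ) ^ p)⁻¹ *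
      (((∏ j, (X - C (a j : ℝ)) + C ((ε k : ℝ) ^ 2) * ∑ j : Fin e,
          C (((h j).eval (ε k) : ℚ) : ℝ) * X ^ (j : ℕ) + C ((ε k : ℝ) * σ k)) ^ p -
        ∏ i : Fin p × Fin e, (X - C ((a i.2 : ℝ) + ε k * α i))).comp
          (C (a j : ℝ) + C (ε k : ℝ) * X)).coeff d) atTop
      (𝓝 (((C B * X + C σ₀) ^ p - C B ^ p * ∏ i, (X - C (α (i, j) : ℝ)) : ℝ[X]).coeff d))

/-- (R3Q) `t_R3Q : S_PL → S_CL → S_G → S_LIM → S_R3Q`: `ρ = ∑ m j`, `2 m j < p`; `a j = j`,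
`α (i, j) = (the α of (CL) for m j) i / B j`, `σ₀ = 1`, `ε = 1 / (k + 1)`; if the assertion fails for all large `k`
(interval `ε (1 - 1 / (k + 2)) < s < ε (1 + 1 / (k + 2))`) there are `σ k → 1` contradicting (PL) for `ι = Fin e × Fin (p - 1)`,
`u = a j`, `v = ε k`, `c = ε k ^ (- p)`, `z (j, i) = (the z of (CL) for m j) i / B j`; the degree is `(p - 1) e` -/
def S_R3Q : Prop :=
  ∀ (p e ρ : ℕ), p.Prime → 2 < p → 1 ≤ e → 2 * ρ ≤ (p - 1) * e →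
    ∃ (b : Fin p × Fin e → ℚ) (g r : ℚ[X]) (α β : ℝ),
    Function.Injective b ∧ g.Monic ∧ g.natDegree = e ∧ r.degree < ((p - 1) * e : ℕ) ∧
    ∏ i, (X - C (b i)) = g ^ p + r ∧ 0 < α ∧ α < β ∧
    ∀ σ : ℝ, α < σ → σ < β → {x : ℝ | (aeval x g + σ) ^ p = aeval x g ^ p + aeval x r}.ncard = 2 * ρ

/-- (R4Q) `t_R4Q : S_R3Q → S_R4Q` as `t_R4P` (J4H97/TP/R4P.lean) -/
def S_R4Q : Prop :=
  ∀ (p e ρ : ℕ), p.Prime → 2 < p → 2 ≤ e → 2 * ρ ≤ (p - 1) * e →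
    ∃ (k : ℕ) (D : DatP p e k) (α β : ℝ), 0 < α ∧ α < β ∧
    ∀ σ : ℝ, α < σ → σ < β →
      {x : ℝ | (aeval x D.g + σ) ^ p = aeval x D.g ^ p + aeval x D.r}.ncard = 2 * ρ

end Pool.Agent.J4H20.TQ
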